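import Mathlib
import Pool.Agent.H82.ATM.G9
import Pool.Agent.H82.ATM.G10

/-! The two critical points of the Ashkin-Teller model coincide in high dimension near the Potts line. -/

set_option autoImplicit false

namespace Pool.Agent.Results.MP_2023fc_mp.CriticalPointsCoincide

open MeasureTheory Filter Topology

/-- vertices of the hypercubic lattice -/
abbrev Vertex (d : ℕ) := Fin d → ℤ

/-- nearest-neighbour edges: `(x, i)` is the edge between `x` and `x + e_i` -/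
abbrev Edge (d : ℕ) := (Fin d → ℤ) × Fin d

/-- the box `[a, b]` -/
noncomputable def box {d : ℕ} (a b : Vertex d) : Finset (Vertex d) := Finset.Icc a b

/-- vertices of the box `[a, b]` -/
def BoxVertex {d : ℕ} (a b : Vertex d) : Type := {x : Vertex d // x ∈ box a b}

/-- edges of the box `[a, b]`: both end points lie in the box -/
def BoxEdge {d : ℕ} (a b : Vertex d) : Type :=
  {e : BoxVertex a b × Fin d // e.1.1 + Pi.single e.2 1 ∈ box a b}

/-- first end point of a box edge -/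
def BoxEdge.src {d : ℕ} {a b : Vertex d} (e : BoxEdge a b) : BoxVertex a b := e.1.1

/-- second end point of a box edge -/
def BoxEdge.tgt {d : ℕ} {a b : Vertex d} (e : BoxEdge a b) : BoxVertex a b :=
  ⟨e.1.1.1 + Pi.single e.1.2 1, e.2⟩

/-- a box edge as an edge of the lattice -/
def BoxEdge.toEdge {d : ℕ} {a b : Vertex d} (e : BoxEdge a b) : Edge d := (e.1.1.1, e.1.2)

/-- the graph with vertex set the box and edge set `F` -/
def boxGraph {d : ℕ} {a b : Vertex d} (F : Set (BoxEdge a b)) : SimpleGraph (BoxVertex a b) :=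
  SimpleGraph.fromRel (fun x y => ∃ e ∈ F, BoxEdge.src e = x ∧ BoxEdge.tgt e = y)

/-- `k(F)`: number of connected components of `(Λ, F)` -/
noncomputable def numComp {d : ℕ} {a b : Vertex d} (F : Set (BoxEdge a b)) : ℕ :=
  Nat.card (boxGraph F).ConnectedComponent

/-- the edges with value `i` -/
def eta {d : ℕ} {a b : Vertex d} (ω : BoxEdge a b → Fin 3) (i : Fin 3) :
    Set (BoxEdge a b) := {e | ω e = i}

/-- the unnormalised weight
`p_0^|η_0| p_1^|η_1| p_2^|η_2| 2^(k(η_1 ∪ η_2) + k(η_2))` -/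
noncomputable def weight {d : ℕ} {a b : Vertex d} (β J1 J2 : ℝ)
    (ω : BoxEdge a b → Fin 3) : ℝ :=
  Real.exp (-(β * J2)) ^ Nat.card (eta ω 0)
    * (Real.exp (-(β * J1)) - Real.exp (-(β * J2))) ^ Nat.card (eta ω 1)
    * (1 - Real.exp (-(β * J1))) ^ Nat.card (eta ω 2)
    * 2 ^ (numComp (eta ω 1 ∪ eta ω 2) + numComp (eta ω 2))

/-- extension of a configuration of the box by `0` -/
noncomputable def extend {d : ℕ} {a b : Vertex d} (ω : BoxEdge a b → Fin 3) :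
    Edge d → Fin 3 := Function.extend BoxEdge.toEdge ω (fun _ => 0)

/-- total weight of the configurations of the box `[a, b]` whose extension lies in `A` -/
noncomputable def mass (d : ℕ) (a b : Vertex d) (β J1 J2 : ℝ) (A : Set (Edge d → Fin 3)) : ℝ :=
  ∑ᶠ ω : BoxEdge a b → Fin 3, weight β J1 J2 ω * A.indicator (fun _ => 1) (extend ω)

/-- probability of an event under the random-cluster measure of the box `[a, b]` -/
noncomputable def prob (d : ℕ) (a b : Vertex d) (β J1 J2 : ℝ) (A : Set (Edge d → Fin 3)) : ℝ :=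
  mass d a b β J1 J2 A / mass d a b β J1 J2 Set.univ

/-- `μ` is a weak limit of the random-cluster measures of boxes increasing to the lattice
(convergence of all cylinder probabilities) -/
def IsWeakLimit (d : ℕ) (β J1 J2 : ℝ) (μ : Measure (Edge d → Fin 3)) : Prop :=
  IsProbabilityMeasure μ ∧ ∃ a b : ℕ → Vertex d,
    (∀ x : Vertex d, ∀ᶠ n in atTop, x ∈ Finset.Icc (a n) (b n)) ∧
    ∀ (F : Finset (Edge d)) (η : Edge d → Fin 3),
      Tendsto (fun n => prob d (a n) (b n) β J1 J2 {ω | ∀ e ∈ F, ω e = η e}) atTop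
        (𝓝 (μ.real {ω | ∀ e ∈ F, ω e = η e}))

/-- the subgraph of the lattice with edge set `F` -/
def latticeGraph {d : ℕ} (F : Set (Edge d)) : SimpleGraph (Vertex d) :=
  SimpleGraph.fromRel (fun x y => ∃ e ∈ F, e.1 = x ∧ e.1 + Pi.single e.2 1 = y)

/-- there is an infinite cluster of type 1/2 -/
def InfCluster12 {d : ℕ} (ω : Edge d → Fin 3) : Prop :=
  ∃ x, {y | (latticeGraph {e | ω e = 1 ∨ ω e = 2}).Reachable x y}.Infinite

/-- there is an infinite cluster of type 2 -/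
def InfCluster2 {d : ℕ} (ω : Edge d → Fin 3) : Prop :=
  ∃ x, {y | (latticeGraph {e | ω e = 2}).Reachable x y}.Infinite

/-- the threshold `β_1` -/
noncomputable def beta1 (d : ℕ) (J1 J2 : ℝ) : ℝ :=
  sInf {β : ℝ | 0 < β ∧ ∀ μ, IsWeakLimit d β J1 J2 μ → ∀ᵐ ω ∂μ, InfCluster12 ω}

/-- the threshold `β_2` -/
noncomputable def beta2 (d : ℕ) (J1 J2 : ℝ) : ℝ :=
  sInf {β : ℝ | 0 < β ∧ ∀ μ, IsWeakLimit d β J1 J2 μ → ∀ᵐ ω ∂μ, InfCluster2 ω}

/-! ## bridge to the working definitions -/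

theorem extend_eq {d : ℕ} {a b : Vertex d} (ω : BoxEdge a b → Fin 3) :
    extend ω = H82AT.bext (a := a) (b := b) ω := rfl

theorem numComp_eq {d : ℕ} {a b : Vertex d} (F : Set (BoxEdge a b)) :
    (H82AT.boxGr d a b).nc F = 2 ^ numComp F :=
  H82AT.nc_comp (H82AT.boxGr d a b) F

theorem lv_one {d : ℕ} {a b : Vertex d} (ω : BoxEdge a b → Fin 3) :
    H82AT.lv ω 1 = eta ω 1 ∪ eta ω 2 := by
  ext e
  simp only [H82AT.lv, eta, Set.mem_ofPred_eq, Set.mem_union]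
  generalize ω e = k
  fin_cases k <;> simp

theorem lv_two {d : ℕ} {a b : Vertex d} (ω : BoxEdge a b → Fin 3) :
    H82AT.lv ω 2 = eta ω 2 := by
  ext e
  simp only [H82AT.lv, eta, Set.mem_ofPred_eq]
  generalize ω e = k
  fin_cases k <;> simp

theorem prod_eq {ι : Type} [Fintype ι] (p : Fin 3 → ℝ) (ω : ι → Fin 3) :
    ∏ e, p (ω e) = p 0 ^ Nat.card {e | ω e = 0} * p 1 ^ Nat.card {e | ω e = 1}
      * p 2 ^ Nat.card {e | ω e = 2} := by
  classical
  have h2 : ∏ e, p (ω e) = ∏ k : Fin 3, p k ^ (Finset.univ.filter (fun e => ω e = k)).card := by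
    rw [← Finset.prod_fiberwise Finset.univ ω (fun e => p (ω e))]
    refine Finset.prod_congr rfl (fun k _ => ?_)
    rw [Finset.prod_congr rfl (g := fun _ => p k)]
    · rw [Finset.prod_const]
    · intro e he
      rw [(Finset.mem_filter.mp he).2]
  rw [h2, Fin.prod_univ_three]
  have h3 : ∀ k : Fin 3, Nat.card {e | ω e = k} = (Finset.univ.filter (fun e => ω e = k)).card := by
    intro k
    rw [Nat.card_eq_fintype_card, Fintype.card_subtype]
    rfl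
  rw [h3, h3, h3]

theorem weight_eq {d : ℕ} {a b : Vertex d} (β J1 J2 : ℝ) (ω : BoxEdge a b → Fin 3) :
    weight β J1 J2 ω = (H82AT.boxGr d a b).W (H82AT.pr β J1 J2) ω := by
  have h1 : ((H82AT.boxGr d a b).nc (H82AT.lv ω 1) : ℝ) = 2 ^ numComp (eta ω 1 ∪ eta ω 2) := by
    calc ((H82AT.boxGr d a b).nc (H82AT.lv ω 1) : ℝ)
        = ((2 ^ numComp (H82AT.lv (E := BoxEdge a b) ω 1) : ℕ) : ℝ) :=
          congrArg Nat.cast (numComp_eq (H82AT.lv (E := BoxEdge a b) ω 1))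
      _ = 2 ^ numComp (eta ω 1 ∪ eta ω 2) := by
          rw [lv_one]
          push_cast
          rfl
  have h2 : ((H82AT.boxGr d a b).nc (H82AT.lv ω 2) : ℝ) = 2 ^ numComp (eta ω 2) := by
    calc ((H82AT.boxGr d a b).nc (H82AT.lv ω 2) : ℝ)
        = ((2 ^ numComp (H82AT.lv (E := BoxEdge a b) ω 2) : ℕ) : ℝ) :=
          congrArg Nat.cast (numComp_eq (H82AT.lv (E := BoxEdge a b) ω 2))
      _ = 2 ^ numComp (eta ω 2) := by
          rw [lv_two]
          push_cast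
          rfl
  have h3 := prod_eq (ι := H82AT.BE d a b) (H82AT.pr β J1 J2) ω
  unfold weight H82AT.Gr.W
  rw [h3]
  erw [h1, h2]
  rw [pow_add]
  rfl

theorem mass_eq (d : ℕ) (a b : Vertex d) (β J1 J2 : ℝ) (A : Set (Edge d → Fin 3)) :
    mass d a b β J1 J2 A = ∑ ω : H82AT.BE d a b → Fin 3,
      (H82AT.boxGr d a b).W (H82AT.pr β J1 J2) ω * H82AT.ind (H82AT.bext ω ∈ A) := by
  classical
  have h : mass d a b β J1 J2 A = ∑ᶠ ω : H82AT.BE d a b → Fin 3,
      (H82AT.boxGr d a b).W (H82AT.pr β J1 J2) ω * H82AT.ind (H82AT.bext ω ∈ A) := by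
    unfold mass
    refine finsum_congr (fun ω => ?_)
    rw [weight_eq, extend_eq]
    by_cases hm : H82AT.bext (a := a) (b := b) ω ∈ A
    · rw [Set.indicator_of_mem hm, H82AT.ind_true hm]
    · rw [Set.indicator_of_notMem hm, H82AT.ind_false hm]
  rw [h, finsum_eq_sum_of_fintype]

theorem prob_eq (d : ℕ) (a b : Vertex d) (β J1 J2 : ℝ) (A : Set (Edge d → Fin 3)) :
    prob d a b β J1 J2 A
      = H82AT.phiB d a b (H82AT.pr β J1 J2) (fun ω => H82AT.ind (ω ∈ A)) := by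
  unfold prob H82AT.phiB H82AT.Gr.phi
  rw [mass_eq, mass_eq]
  congr 1
  refine Finset.sum_congr rfl (fun ω _ => ?_)
  rw [H82AT.ind_true (Set.mem_univ _), mul_one]

theorem isWeakLimit_iff (d : ℕ) (β J1 J2 : ℝ) (μ : Measure (Edge d → Fin 3)) :
    IsWeakLimit d β J1 J2 μ ↔ H82AT.IsWL d (H82AT.pr β J1 J2) μ := by
  have h : ∀ (a b : Vertex d) (F : Finset (Edge d)) (η : Edge d → Fin 3),
      prob d a b β J1 J2 {ω | ∀ e ∈ F, ω e = η e}
        = H82AT.phiB d a b (H82AT.pr β J1 J2) (fun ω => H82AT.ind (∀ e ∈ F, ω e = η e)) :=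
    fun a b F η => prob_eq d a b β J1 J2 _
  unfold IsWeakLimit H82AT.IsWL
  simp only [h]

theorem single_ne (d : ℕ) (x : Vertex d) (i : Fin d) : x ≠ x + Pi.single i 1 := by
  intro h
  have h1 := congrFun h i
  simp at h1

theorem reach_eq {d : ℕ} (F : Set (Edge d)) (x y : Vertex d) :
    (latticeGraph F).Reachable x y ↔ (H82AT.ZGr d).conn F x y := by
  rw [SimpleGraph.reachable_iff_reflTransGen]
  unfold H82AT.Gr.conn
  have h : (latticeGraph F).Adj = (H82AT.ZGr d).adj F := by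
    ext x y
    simp only [latticeGraph, SimpleGraph.fromRel_adj, H82AT.Gr.adj, H82AT.ZGr]
    constructor
    · rintro ⟨_, ⟨e, he, h1, h2⟩ | ⟨e, he, h1, h2⟩⟩
      · exact ⟨e, he, Or.inl ⟨h1, h2⟩⟩
      · exact ⟨e, he, Or.inr ⟨h1, h2⟩⟩
    · rintro ⟨e, he, ⟨h1, h2⟩ | ⟨h1, h2⟩⟩
      · refine ⟨?_, Or.inl ⟨e, he, h1, h2⟩⟩
        rw [← h1, ← h2]
        exact single_ne d e.1 e.2
      · refine ⟨?_, Or.inr ⟨e, he, h1, h2⟩⟩
        rw [← h1, ← h2]
        exact (single_ne d e.1 e.2).symm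
  rw [h]

theorem inf12_iff {d : ℕ} (ω : Edge d → Fin 3) :
    InfCluster12 ω ↔ ∃ x, {y | (H82AT.ZGr d).conn (H82AT.lv ω 1) x y}.Infinite := by
  unfold InfCluster12
  have h : {e | ω e = 1 ∨ ω e = 2} = H82AT.lv ω 1 := by
    ext e
    simp only [H82AT.lv, Set.mem_ofPred_eq]
    generalize ω e = k
    fin_cases k <;> simp
  simp only [h, reach_eq]

theorem inf2_iff {d : ℕ} (ω : Edge d → Fin 3) :
    InfCluster2 ω ↔ ∃ x, {y | (H82AT.ZGr d).conn (H82AT.lv ω 2) x y}.Infinite := by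
  unfold InfCluster2
  have h : {e | ω e = 2} = H82AT.lv ω 2 := by
    ext e
    simp only [H82AT.lv, Set.mem_ofPred_eq]
    generalize ω e = k
    fin_cases k <;> simp
  simp only [h, reach_eq]

theorem inf2_inf12 {d : ℕ} (ω : Edge d → Fin 3) (h : InfCluster2 ω) : InfCluster12 ω := by
  rw [inf2_iff] at h
  rw [inf12_iff]
  obtain ⟨x, hx⟩ := h
  refine ⟨x, hx.mono ?_⟩
  intro y hy
  refine H82AT.conn_mono _ ?_ hy
  intro e he
  simp only [H82AT.lv, Set.mem_ofPred_eq] at he ⊢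
  omega

/-- abstract thresholds -/
theorem key (d : ℕ) (hd : 1 ≤ d) (ε : ℝ) (h0 : 0 < ε) (h1 : ε < 1)
    (hstep : ∀ a b : ℝ, 0 < a → a < b → 2 * d * b ≤ 5 →
      H82AT.Perc d (H82AT.pr a (1 - ε) 1) 1 → H82AT.Perc d (H82AT.pr b (1 - ε) 1) 2)
    (htop : H82AT.Perc d (H82AT.pr (5 / (2 * d)) (1 - ε) 1) 2) :
    ∃ βc : ℝ, 0 < βc ∧
      (∀ β : ℝ, 0 < β → β < βc → ¬ H82AT.Perc d (H82AT.pr β (1 - ε) 1) 1) ∧
      (∀ β : ℝ, βc < β → H82AT.Perc d (H82AT.pr β (1 - ε) 1) 2) := by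
  have hd' : (0 : ℝ) < d := by exact_mod_cast hd
  have hε1 : (0 : ℝ) < 1 - ε := by linarith
  have hε2 : (1 : ℝ) - ε < 1 := by linarith
  have hpos : ∀ β : ℝ, 0 < β → ∀ i, 0 < H82AT.pr β (1 - ε) 1 i := fun β hβ i =>
    H82AT.pr_pos hβ hε1 hε2 i
  have htop0 : (0 : ℝ) < 5 / (2 * d) := by positivity
  let P : Set ℝ := {β | 0 < β ∧ H82AT.Perc d (H82AT.pr β (1 - ε) 1) 1}
  have hPtop : (5 / (2 * d) : ℝ) ∈ P := ⟨htop0, H82AT.Perc_two_one (hpos _ htop0) htop⟩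
  have hlow : ∀ β ∈ P, 1 / (4 * (d : ℝ)) ≤ β := by
    intro β hβ
    by_contra hlt
    push Not at hlt
    refine H82AT.low hd hβ.1 h0 h1 ?_ hβ.2
    rw [lt_div_iff₀ (by positivity)] at hlt
    linarith
  have hbdd : BddBelow P := ⟨_, hlow⟩
  have hne : P.Nonempty := ⟨_, hPtop⟩
  refine ⟨sInf P, lt_of_lt_of_le (by positivity) (le_csInf hne hlow), ?_, ?_⟩
  · intro β hβ hlt hP
    exact absurd (csInf_le hbdd ⟨hβ, hP⟩) (not_le.mpr hlt)
  · intro β hβ
    obtain ⟨a, haP, hab⟩ := exists_lt_of_csInf_lt hne hβ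
    have hβ0 : 0 < β := lt_trans haP.1 hab
    by_cases hle : 2 * d * β ≤ 5
    · exact hstep a β haP.1 hab hle haP.2
    · push Not at hle
      have hlt : 5 / (2 * d) ≤ β := by
        rw [div_le_iff₀ (by positivity)]
        linarith
      exact H82AT.Perc_mono (hpos _ htop0) (hpos _ hβ0)
        (H82AT.pr_RL htop0 hlt hε1 hε2) 2 htop

theorem pr_scale (β J1 J2 : ℝ) (h2 : 0 < J2) :
    H82AT.pr β J1 J2 = H82AT.pr (β * J2) (1 - (J2 - J1) / J2) 1 := by
  have h : (1 - (J2 - J1) / J2) = J1 / J2 := by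
    field_simp
    ring
  have h' : β * J2 * (J1 / J2) = β * J1 := by
    field_simp
  unfold H82AT.pr
  rw [h, h', mul_one]

/-- In every sufficiently high dimension, for all `J1 < J2` sufficiently close to each other, the two critical
points coincide. -/
theorem result : ∃ d0 : ℕ, 2 ≤ d0 ∧ ∃ ε0 : ℝ, 0 < ε0 ∧ ε0 < 1 ∧ ∀ d : ℕ, d0 ≤ d →
    ∀ J1 J2 : ℝ, 0 < J1 → J1 < J2 → J2 - J1 ≤ ε0 * J2 →
      0 < beta1 d J1 J2 ∧ beta1 d J1 J2 = beta2 d J1 J2 ∧
      (∀ β : ℝ, 0 < β → ∃ μ, IsWeakLimit d β J1 J2 μ) ∧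
      (∀ β : ℝ, 0 < β → β < beta1 d J1 J2 → ∀ μ, IsWeakLimit d β J1 J2 μ →
        ∀ᵐ ω ∂μ, ¬ InfCluster12 ω) ∧
      (∀ β : ℝ, beta1 d J1 J2 < β → ∀ μ, IsWeakLimit d β J1 J2 μ →
        ∀ᵐ ω ∂μ, InfCluster2 ω) := by
  obtain ⟨d1, hd1, ε1, hε1, hε1', H⟩ := H82AT.main_finite
  refine ⟨max d1 2, le_max_right _ _, ε1, hε1, hε1', ?_⟩
  intro d hd J1 J2 hJ1 hJ hJε
  have hd1' : d1 ≤ d := le_trans (le_max_left _ _) hd
  have hd1'' : 1 ≤ d := le_trans hd1 hd1'
  have hJ2 : 0 < J2 := lt_trans hJ1 hJ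
  set ε : ℝ := (J2 - J1) / J2 with hε
  have hε0 : 0 < ε := div_pos (by linarith) hJ2
  have hεle : ε ≤ ε1 := by
    rw [hε, div_le_iff₀ hJ2]
    exact hJε
  have hεlt : ε < 1 := lt_of_le_of_lt hεle hε1'
  obtain ⟨hstep, htop⟩ := H d hd1' ε hε0 hεle
  obtain ⟨βc, hβc, hbelow, habove⟩ := key d hd1'' ε hε0 hεlt hstep htop
  have hpr : ∀ β : ℝ, H82AT.pr β J1 J2 = H82AT.pr (β * J2) (1 - ε) 1 := fun β =>
    pr_scale β J1 J2 hJ2
  have hpos : ∀ β : ℝ, 0 < β → ∀ i, 0 < H82AT.pr β J1 J2 i := fun β hβ i =>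
    H82AT.pr_pos hβ hJ1 hJ i
  have hex : ∀ β : ℝ, 0 < β → ∃ μ, IsWeakLimit d β J1 J2 μ := by
    intro β hβ
    obtain ⟨μ, hμ⟩ := H82AT.wl_exists (d := d) (hpos β hβ)
    exact ⟨μ, (isWeakLimit_iff d β J1 J2 μ).mpr hμ⟩
  have hb : ∀ β : ℝ, 0 < β → β < βc / J2 → ∀ μ, IsWeakLimit d β J1 J2 μ →
      ∀ᵐ ω ∂μ, ¬ InfCluster12 ω := by
    intro β hβ hlt μ hμ
    rw [isWeakLimit_iff] at hμ
    have hP : ¬ H82AT.Perc d (H82AT.pr β J1 J2) 1 := by
      rw [hpr]
      exact hbelow _ (mul_pos hβ hJ2) ((lt_div_iff₀ hJ2).mp hlt)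
    have := H82AT.wl_fin (hpos β hβ) hμ 1 le_rfl hP
    filter_upwards [this] with ω hω
    rw [inf12_iff]
    push Not
    exact fun x => Set.not_infinite.mp (hω x)
  have ha : ∀ β : ℝ, βc / J2 < β → ∀ μ, IsWeakLimit d β J1 J2 μ →
      ∀ᵐ ω ∂μ, InfCluster2 ω := by
    intro β hlt μ hμ
    have hβ : 0 < β := lt_trans (div_pos hβc hJ2) hlt
    rw [isWeakLimit_iff] at hμ
    have hP : H82AT.Perc d (H82AT.pr β J1 J2) 2 := by
      rw [hpr]
      exact habove _ ((div_lt_iff₀ hJ2).mp hlt)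
    have := H82AT.wl_inf (hpos β hβ) hμ 2 (by norm_num) hP
    filter_upwards [this] with ω hω
    rw [inf2_iff]
    exact hω
  have hc0 : 0 < βc / J2 := div_pos hβc hJ2
  have hinf : ∀ (Q : (Edge d → Fin 3) → Prop), (∀ ω, InfCluster2 ω → Q ω) →
      (∀ ω, Q ω → InfCluster12 ω) →
      sInf {β : ℝ | 0 < β ∧ ∀ μ, IsWeakLimit d β J1 J2 μ → ∀ᵐ ω ∂μ, Q ω} = βc / J2 := by
    intro Q hQ2 hQ1
    apply le_antisymm
    · refine le_of_forall_gt_imp_ge_of_dense (fun β hβ => ?_)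
      refine csInf_le ⟨0, fun b hb => hb.1.le⟩ ⟨lt_trans hc0 hβ, fun μ hμ => ?_⟩
      filter_upwards [ha β hβ μ hμ] with ω hω
      exact hQ2 ω hω
    · refine le_csInf ⟨βc / J2 + 1, by linarith, fun μ hμ => ?_⟩ ?_
      · filter_upwards [ha _ (by linarith) μ hμ] with ω hω
        exact hQ2 ω hω
      · rintro β ⟨hβ0, hβ⟩
        by_contra hlt
        push Not at hlt
        obtain ⟨μ, hμ⟩ := hex β hβ0
        have h1 := hβ μ hμ
        have h2 := hb β hβ0 hlt μ hμ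
        have : IsProbabilityMeasure μ := hμ.1
        have h3 : ∀ᵐ ω ∂μ, False := by
          filter_upwards [h1, h2] with ω hω1 hω2
          exact hω2 (hQ1 ω hω1)
        have h4 := h3.exists
        obtain ⟨_, h5⟩ := h4
        exact h5
  have h1 : beta1 d J1 J2 = βc / J2 := hinf InfCluster12 (fun ω h => inf2_inf12 ω h) (fun _ h => h)
  have h2 : beta2 d J1 J2 = βc / J2 := hinf InfCluster2 (fun _ h => h) (fun ω h => inf2_inf12 ω h)
  rw [h1, h2]
  exact ⟨hc0, rfl, hex, hb, ha⟩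

end Pool.Agent.Results.MP_2023fc_mp.CriticalPointsCoincide
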